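import Mathlib
import Pool.Agent.H937R3.StripNull
import Pool.Agent.Results.MP_6b55e5_an.RogersQ2

/-!
Rogers' question Q1 has a negative answer: there is a Besicovitch set that cannot be covered by
strips of small total width.

The point is that there are compact sets of plane measure zero that cannot be covered by strips
of small total width.  Put `v_k = (1, τ_k)` with `τ_k = 2 ^ (- k - 2)` and let `N_k` tend to
infinity fast.  The set `K` of the points `x` of the unit square with `sin (N_k ⟨x, v_k⟩) ≥ 0` for
all `k` is compact, and null by the Riemann-Lebesgue lemma.  For a smooth periodic `g ≥ 0` of mean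
one which vanishes where `sin < 0`, the densities `φ_k(x) = ∏_{j < k} g(N_j ⟨x, v_j⟩)` have
bounded integrals along all lines, since a line can be nearly orthogonal to at most one `v_j` and
all other factors average out.  So every strip of width `w` has `φ_k`-mass at most `C w`, while the
total mass is at least `1 / 2`, and compactness gives a lower bound for the total width of a cover
of `K`.  A Besicovitch set together with `K` is the required set.
-/

open MeasureTheory Set

namespace Pool.Agent.Results.MP_6b55e5_an.RogersQ1

/-- The Euclidean plane. -/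
abbrev Plane : Type := EuclideanSpace ℝ (Fin 2)

/-- `S` is a closed strip of width `w > 0`: the closed set between the two parallel lines
`⟪u, x⟫ = c` and `⟪u, x⟫ = c + w`, where `u` is a unit vector. -/
def IsStrip (S : Set Plane) (w : ℝ) : Prop :=
  0 < w ∧ ∃ (u : Plane) (c : ℝ), ‖u‖ = 1 ∧ S = {x | c ≤ inner ℝ u x ∧ inner ℝ u x ≤ c + w}

/-- A Besicovitch set: bounded, Lebesgue null, with a closed unit segment in every direction. -/
def IsBesicovitch (E : Set Plane) : Prop :=
  Bornology.IsBounded E ∧ volume E = 0 ∧
    ∀ e : Plane, ‖e‖ = 1 → ∃ x : Plane, segment ℝ x (x + e) ⊆ E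

/-- There are a Besicovitch set `E` and an `ε > 0` such that every (finite or countable) covering
of `E` by strips has total width at least `ε`. -/
theorem result : ∃ (E : Set Plane) (ε : ℝ), IsBesicovitch E ∧ 0 < ε ∧
    ∀ (ι : Type) (_ : Countable ι) (S : ι → Set Plane) (w : ι → ℝ),
      (∀ i, IsStrip (S i) (w i)) → E ⊆ ⋃ i, S i →
        ENNReal.ofReal ε ≤ ∑' i, ENNReal.ofReal (w i) := by
  obtain ⟨b⟩ := Pool.Agent.H937R3.StripLine.exists_bump
  obtain ⟨E₀, ⟨hbd, hnull, hseg⟩, -⟩ := Pool.Agent.Results.MP_6b55e5_an.RogersQ2.result
  have hB := b.hB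
  refine ⟨E₀ ∪ Pool.Agent.H937R3.StripNull.K b, 1 / (16 * b.B), ⟨?_, ?_, ?_⟩, by positivity, ?_⟩
  · exact hbd.union (Pool.Agent.H937R3.StripNull.K_compact b).isBounded
  · exact measure_union_null hnull (Pool.Agent.H937R3.StripNull.K_null b)
  · intro e he
    obtain ⟨x, hx⟩ := hseg e he
    exact ⟨x, hx.trans subset_union_left⟩
  · intro ι _ S w hS hcov
    choose hw u c hu hSe using hS
    apply Pool.Agent.H937R3.StripNull.K_strips b u c w hu hw
    refine (subset_union_right.trans hcov).trans (iUnion_mono fun i => ?_)
    rw [hSe i]

end Pool.Agent.Results.MP_6b55e5_an.RogersQ1
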